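import Mathlib

set_option autoImplicit false

namespace Pool.Agent.H.MP_ad7422_al

/-- number of conjugacy classes on which a class function vanishes -/
noncomputable def zeros {G : Type} [Group G] (χ : G → ℂ) : ℕ :=
  {c : ConjClasses G | ∃ g, ConjClasses.mk g = c ∧ χ g = 0}.ncard

/-- the largest number of zeros in a row of the character table -/
noncomputable def mz (G : Type) [Group G] : ℕ :=
  sSup {n | ∃ V : FDRep ℂ G, Representation.IsIrreducible V.ρ ∧ n = zeros V.character}

/-- the Fitting subgroup -/
def fitting (G : Type) [Group G] : Subgroup G :=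
  sSup {N : Subgroup G | N.Normal ∧ Group.IsNilpotent N}

end Pool.Agent.H.MP_ad7422_al
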