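import Mathlib
import Pool.Agent.H.MP_ad7422_al.Defs

set_option autoImplicit false

namespace Pool.Agent.H.MP_ad7422_al

open LinearMap

section
variable {G V : Type} [Group G] [AddCommGroup V] [Module ℂ V] [FiniteDimensional ℂ V]
  (ρ : Representation ℂ G V)

def Stab (F : Subgroup G) (W : Submodule ℂ V) : Prop := ∀ g ∈ F, ∀ v ∈ W, ρ g v ∈ W

def Mn (F : Subgroup G) (W : Submodule ℂ V) : Prop :=
  W ≠ ⊥ ∧ Stab ρ F W ∧ ∀ U ≤ W, U ≠ ⊥ → Stab ρ F U → U = W

variable {ρ}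

lemma schur {F : Subgroup G} {W : Submodule ℂ V} (hW : Mn ρ F W) (T : Module.End ℂ V)
    (hT : ∀ v ∈ W, T v ∈ W) (hc : ∀ g ∈ F, ∀ v ∈ W, T (ρ g v) = ρ g (T v)) :
    ∃ s : ℂ, ∀ v ∈ W, T v = s • v := by
  haveI : Nontrivial W := Submodule.nontrivial_iff_ne_bot.2 hW.1
  obtain ⟨s, hs⟩ := Module.End.exists_eigenvalue (T.restrict hT)
  obtain ⟨w, hw, w0⟩ := hs.exists_hasEigenvector
  have e : T w = s • (w : V) := congrArg Subtype.val (Module.End.mem_eigenspace_iff.1 hw)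
  have := hW.2.2 (W ⊓ T.eigenspace s) inf_le_left (fun h => w0 (by
    have : (w : V) ∈ W ⊓ T.eigenspace s := ⟨w.2, Module.End.mem_eigenspace_iff.2 e⟩
    rw [h] at this
    exact Subtype.ext this)) fun g hg v hv => ⟨hW.2.1 g hg v hv.1, by
      have := Module.End.mem_eigenspace_iff.1 hv.2
      refine Module.End.mem_eigenspace_iff.2 ?_
      rw [hc g hg v hv.1, this, map_smul]⟩
  exact ⟨s, fun v hv => Module.End.mem_eigenspace_iff.1 (this.ge hv).2⟩

lemma mn_top (h : ρ.IsIrreducible) : Mn ρ ⊤ ⊤ := by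
  refine ⟨fun e => ?_, fun _ _ _ _ => trivial, fun U _ h0 hU => ?_⟩
  · exact bot_ne_top (α := Subrepresentation ρ) (Subrepresentation.toSubmodule_injective e.symm)
  · rcases eq_bot_or_eq_top (⟨U, fun g v hv => hU g trivial v hv⟩ : Subrepresentation ρ) with e | e
    · exact absurd (congrArg Subrepresentation.toSubmodule e) h0
    · exact congrArg Subrepresentation.toSubmodule e

lemma ex_mn (h : ρ.IsIrreducible) (F : Subgroup G) : ∃ W, Mn ρ F W := by
  obtain ⟨W, hW⟩ := exists_minimal_of_wellFoundedLT (fun W : Submodule ℂ V => W ≠ ⊥ ∧ Stab ρ F W)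
    ⟨⊤, (mn_top h).1, fun _ _ _ _ => trivial⟩
  exact ⟨W, hW.1.1, hW.1.2, fun U l a b => le_antisymm l (hW.2 ⟨a, b⟩ l)⟩

lemma avg [Fintype G] (h : ρ.IsIrreducible) (π : Module.End ℂ V) (f : G)
    (h0 : ρ.character f = 0) : ∑ g, trace ℂ V (ρ (g⁻¹ * f * g) * π) = 0 := by
  obtain ⟨s, hs⟩ := schur (mn_top h) (∑ g, ρ g * π * ρ g⁻¹) (fun _ _ => trivial) fun x _ v _ => by
    simp only [LinearMap.sum_apply, map_sum]
    refine (Fintype.sum_equiv (Equiv.mulLeft x) _ _ fun g => ?_).symm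
    simp only [Equiv.coe_mulLeft, Module.End.mul_apply, map_mul, mul_inv_rev]
    rw [ρ.inv_self_apply]
  have e : (∑ g, ρ g * π * ρ g⁻¹) = s • (1 : Module.End ℂ V) := by
    ext v
    simpa using hs v trivial
  have : trace ℂ V (ρ f * ∑ g, ρ g * π * ρ g⁻¹) = 0 := by
    rw [e, mul_smul_comm, mul_one, map_smul]
    exact smul_eq_zero_of_right _ h0
  rw [← this, Finset.mul_sum, map_sum]
  refine Finset.sum_congr rfl fun g _ => ?_
  simp only [map_mul, mul_assoc]
  rw [trace_mul_comm]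
  simp only [mul_assoc]

lemma cls {F : Subgroup G} {W : Submodule ℂ V} (hW : Stab ρ F W) {π : Module.End ℂ V}
    (hπ : IsProj W π) {x y : G} (hx : x ∈ F) (hy : y ∈ F) :
    trace ℂ V (ρ (y⁻¹ * x * y) * π) = trace ℂ V (ρ x * π) := by
  have e1 : ρ x * (ρ y * (π * ρ y⁻¹)) = π * (ρ x * (ρ y * (π * ρ y⁻¹))) := by
    ext v
    exact (hπ.map_id _ (hW _ hx _ (hW _ hy _ (hπ.map_mem _)))).symm
  have e2 : ρ x * (ρ y * (π * ρ y⁻¹)) * π = ρ x * π := by
    ext v
    simp only [Module.End.mul_apply]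
    rw [hπ.map_id _ (hW _ (inv_mem hy) _ (hπ.map_mem _)), ρ.self_inv_apply]
  simp only [map_mul, mul_assoc]
  rw [trace_mul_comm]
  simp only [mul_assoc]
  rw [e1, trace_mul_comm, e2]

end

def K := Fin 8

instance : DecidableEq K := inferInstanceAs (DecidableEq (Fin 8))
instance : Fintype K := inferInstanceAs (Fintype (Fin 8))

def ex : Fin 7 → Fin 8 := ![1, 2, 4, 3, 6, 7, 5]
def lg : Fin 8 → Fin 7 := ![0, 0, 1, 3, 2, 6, 4, 5]

instance : Zero K := ⟨(0 : Fin 8)⟩
instance : One K := ⟨(1 : Fin 8)⟩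
instance : Add K := ⟨fun a b : Fin 8 => Fin.ofNat 8 (a.1 ^^^ b.1)⟩
instance : Neg K := ⟨fun a => a⟩
instance : Mul K := ⟨fun a b : Fin 8 => if a = 0 ∨ b = 0 then (0 : Fin 8) else ex (lg a + lg b)⟩

instance : CommRing K := CommRing.ofMinimalAxioms (by decide +kernel) (by decide +kernel)
  (by decide +kernel) (by decide +kernel) (by decide +kernel) (by decide +kernel) (by decide +kernel)

lemma two : (2 : K) = 0 := by
  rw [← one_add_one_eq_two]; decide +kernel

def w (u : ZMod 7) : K := ex u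

lemma w0 : w 0 = 1 := rfl
lemma wadd : ∀ u v, w (u + v) = w u * w v := by decide +kernel
lemma sol1 : ∀ u, u ≠ 0 → ∀ a, ∃ x, x + a = w u * x := by decide +kernel
lemma sol3 : ∀ u, u ≠ 0 → ∀ a, ∃ x, x + a = w u * (w u * w u) * x := by decide +kernel
lemma par : ∀ m : K → Bool, (∀ b c, m b = m c → m (b + c) = true) → ∀ a,
    (∑ u : ZMod 7, if ∀ y, m (w (-u) * a * y * (w (-u) * a + y)) = true then 1 else 0 : ZMod 2) = 1 := by
  decide +kernel

@[ext] structure GG (n : ℕ) where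
  a : K
  c : Fin (n + 1) → K
  u : ZMod 7

variable {n : ℕ}

instance : Mul (GG n) := ⟨fun g h => ⟨g.a + w g.u * h.a,
  fun j => g.c j + w g.u ^ 3 * h.c j + g.a * (w g.u * h.a) ^ 2, g.u + h.u⟩⟩
instance : One (GG n) := ⟨⟨0, 0, 0⟩⟩
instance : Inv (GG n) := ⟨fun g => ⟨-(w (-g.u) * g.a),
  fun j => -(w (-g.u) ^ 3 * g.c j - w (-g.u) * g.a * (w (-g.u) * g.a) ^ 2), -g.u⟩⟩

@[simp] lemma mul_a (g h : GG n) : (g * h).a = g.a + w g.u * h.a := rfl
@[simp] lemma mul_c (g h : GG n) (j) :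
    (g * h).c j = g.c j + w g.u ^ 3 * h.c j + g.a * (w g.u * h.a) ^ 2 := rfl
@[simp] lemma mul_u (g h : GG n) : (g * h).u = g.u + h.u := rfl
@[simp] lemma one_a : (1 : GG n).a = 0 := rfl
@[simp] lemma one_c (j) : (1 : GG n).c j = 0 := rfl
@[simp] lemma one_u : (1 : GG n).u = 0 := rfl
lemma inv_a' (g : GG n) : g⁻¹.a = -(w (-g.u) * g.a) := rfl
lemma inv_c' (g : GG n) (j) :
    g⁻¹.c j = -(w (-g.u) ^ 3 * g.c j - w (-g.u) * g.a * (w (-g.u) * g.a) ^ 2) := rfl
lemma inv_u' (g : GG n) : g⁻¹.u = -g.u := rfl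

instance : Group (GG n) := Group.ofLeftAxioms
  (fun g h k => by
    ext
    · simp only [mul_a, mul_u, wadd]; ring
    · simp only [mul_a, mul_c, mul_u, wadd]
      linear_combination -(g.a * w g.u ^ 2 * h.a * w h.u * k.a) * two
    · simp only [mul_u]; ring)
  (fun g => by ext <;> simp [w0])
  (fun g => by
    ext
    · simp [inv_a', inv_u']
    · simp only [mul_c, inv_a', inv_c', inv_u', one_c]; ring
    · simp [inv_u'])

@[simp] lemma inv_a (g : GG n) : g⁻¹.a = -(w (-g.u) * g.a) := rfl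
@[simp] lemma inv_u (g : GG n) : g⁻¹.u = -g.u := rfl

def eqv (n : ℕ) : (K × (Fin (n + 1) → K)) × ZMod 7 ≃ GG n where
  toFun p := ⟨p.1.1, p.1.2, p.2⟩
  invFun g := ((g.a, g.c), g.u)
  left_inv _ := rfl
  right_inv _ := rfl

instance : Fintype (GG n) := Fintype.ofEquiv _ (eqv n)

def FF (n : ℕ) : Subgroup (GG n) where
  carrier := {g | g.u = 0}
  mul_mem' := fun {g h} (a : g.u = 0) (b : h.u = 0) => (by simp [a, b] : (g * h).u = 0)
  one_mem' := rfl
  inv_mem' := fun {g} (a : g.u = 0) => (by simp [a] : g⁻¹.u = 0)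

lemma mem_F {g : GG n} : g ∈ FF n ↔ g.u = 0 := Iff.rfl

def z (b : K) : GG n := ⟨0, fun _ => b, 0⟩
def t (u : ZMod 7) : GG n := ⟨0, 0, u⟩

lemma z_add (b c : K) : (z (b + c) : GG n) = z b * z c := by ext <;> simp [z, w0]
lemma z_zero : (z 0 : GG n) = 1 := rfl
lemma z_cen (b : K) {x : GG n} (hx : x ∈ FF n) : z b * x = x * z b := by
  ext <;> simp [z, w0, mem_F.1 hx, add_comm]
lemma sq_F {x : GG n} (hx : x ∈ FF n) : x * x = z (x.a ^ 3) := by
  ext j
  · simp [z, w0, mem_F.1 hx]; linear_combination x.a * two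
  · simp [z, w0, mem_F.1 hx]; linear_combination x.c j * two
  · simp [z, mem_F.1 hx]
lemma cm_F {x y : GG n} (hx : x ∈ FF n) (hy : y ∈ FF n) :
    x * y = y * (x * z (x.a * y.a * (x.a + y.a))) := by
  ext j
  · simp [z, w0, mem_F.1 hx, mem_F.1 hy, add_comm]
  · simp [z, w0, mem_F.1 hx, mem_F.1 hy]; linear_combination -(x.a ^ 2 * y.a) * two
  · simp [z, mem_F.1 hx, mem_F.1 hy]

instance : (FF n).Normal := ⟨fun g hg h => by simp [mem_F, mem_F.1 hg]⟩

lemma zz (b : K) : (z b * z b : GG n) = 1 := by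
  rw [← z_add, ← two_mul, two, zero_mul, z_zero]

lemma nil : Group.IsNilpotent (FF n) :=
  IsPGroup.isNilpotent (p := 2) fun g => ⟨2, Subtype.ext (by
    show g.1 ^ 2 ^ 2 = 1
    rw [show 2 ^ 2 = 2 * 2 from rfl, pow_mul, sq, sq, sq_F g.2, zz])⟩

lemma conj_t (g : GG n) (hg : g.u ≠ 0) : IsConj g (t g.u) := by
  obtain ⟨x, hx⟩ := sol1 _ hg g.a
  choose y hy using fun j => sol3 _ hg (g.c j + x * g.a ^ 2)
  refine isConj_iff.2 ⟨⟨x, y, 0⟩, mul_inv_eq_of_eq_mul ?_⟩
  ext j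
  · simp [t, w0, hx]
  · simp [t, w0]; linear_combination hy j
  · simp [t]

section
variable {V : Type} [AddCommGroup V] [Module ℂ V] [FiniteDimensional ℂ V]
  {ρ : Representation ℂ (GG n) V} {W : Submodule ℂ V} (hW : Mn ρ (FF n) W)
include hW

lemma sgn (b : K) : (∀ v ∈ W, ρ (z b) v = v) ∨ ∀ v ∈ W, ρ (z b) v = -v := by
  obtain ⟨s, hs⟩ := schur hW (ρ (z b)) (hW.2.1 _ rfl) fun g hg v _ => by
    rw [← Module.End.mul_apply, ← map_mul, z_cen b hg, map_mul, Module.End.mul_apply]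
  obtain ⟨v, hv, v0⟩ := (Submodule.ne_bot_iff _).1 hW.1
  have : (s * s - 1) • v = 0 := by
    rw [sub_smul, mul_smul, ← hs v hv, ← map_smul, ← hs v hv, ← Module.End.mul_apply, ← map_mul,
      zz]
    simp
  rcases mul_self_eq_one_iff.1 (sub_eq_zero.1 ((smul_eq_zero.1 this).resolve_right v0)) with e | e
  · exact .inl fun v hv => by simp [hs v hv, e]
  · exact .inr fun v hv => by simp [hs v hv, e]

lemma val {π : Module.End ℂ V} (hπ : IsProj W π) {x : GG n} (hx : x ∈ FF n)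
    [Decidable (∀ y, ∀ v ∈ W, ρ (z (x.a * y * (x.a + y))) v = v)] :
    ∃ p q : ℤ, trace ℂ V (ρ x * π) = (p + q * Complex.I) * trace ℂ V π ∧
      ((p + q : ℤ) : ZMod 2) = if ∀ y, ∀ v ∈ W, ρ (z (x.a * y * (x.a + y))) v = v then 1 else 0 := by
  split_ifs with h
  · obtain ⟨s, hs⟩ := schur hW (ρ x) (hW.2.1 _ hx) fun g hg v hv => by
      rw [← Module.End.mul_apply, ← map_mul, cm_F hx hg]
      simp only [map_mul, Module.End.mul_apply, h _ v hv]
    have e : trace ℂ V (ρ x * π) = s * trace ℂ V π := by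
      rw [← smul_eq_mul s, ← map_smul]
      congr 1
      ext v
      exact hs _ (hπ.map_mem v)
    obtain ⟨v, hv, v0⟩ := (Submodule.ne_bot_iff _).1 hW.1
    have k : ρ (z (x.a ^ 3)) v = (s * s) • v := by
      rw [← sq_F hx, map_mul, Module.End.mul_apply, hs v hv, map_smul, hs v hv, mul_smul]
    rcases sgn hW (x.a ^ 3) with a | a <;> rw [a v hv] at k
    · have : (s * s - 1) • v = 0 := by rw [sub_smul, ← k]; simp
      rcases mul_self_eq_one_iff.1 (sub_eq_zero.1 ((smul_eq_zero.1 this).resolve_right v0))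
        with e' | e'
      · exact ⟨1, 0, by simp [e, e'], by decide⟩
      · exact ⟨-1, 0, by simp [e, e'], by decide⟩
    · have : (s * s - Complex.I * Complex.I) • v = 0 := by rw [sub_smul, ← k]; simp
      rcases mul_self_eq_mul_self_iff.1 (sub_eq_zero.1 ((smul_eq_zero.1 this).resolve_right v0))
        with e' | e'
      · exact ⟨0, 1, by simp [e, e'], by decide⟩
      · exact ⟨0, -1, by simp [e, e'], by decide⟩
  · obtain ⟨y, hy⟩ := not_forall.1 h
    have a := (sgn hW _).resolve_left hy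
    have hy' : (⟨y, 0, 0⟩ : GG n) ∈ FF n := rfl
    have c := cls hW.2.1 hπ hx hy'
    rw [mul_assoc, cm_F hx hy', inv_mul_cancel_left] at c
    have : ρ (x * z (x.a * y * (x.a + y))) * π = -(ρ x * π) := by
      ext v
      simp [a _ (hπ.map_mem v)]
    rw [this, map_neg] at c
    exact ⟨0, 0, by simp; linear_combination -c / 2, by decide⟩

end

lemma nonvan {V : Type} [AddCommGroup V] [Module ℂ V] [FiniteDimensional ℂ V]
    {ρ : Representation ℂ (GG n) V} (h : ρ.IsIrreducible) {f : GG n} (hf : f ∈ FF n) :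
    ρ.character f ≠ 0 := fun h0 => by
  classical
  obtain ⟨W, hW⟩ := ex_mn h (FF n)
  obtain ⟨U, hU⟩ := W.exists_isCompl
  have hπ : IsProj W (W.projection U hU) :=
    ⟨Submodule.projection_apply_mem hU, fun _ => Submodule.projection_apply_of_mem_left hU⟩
  set π := W.projection U hU
  have mem : ∀ u, (t u)⁻¹ * f * t u ∈ FF n := fun u => by simp [mem_F, mem_F.1 hf]
  have s := avg h π f h0
  have e : ∀ g : GG n, trace ℂ V (ρ (g⁻¹ * f * g) * π) =
      trace ℂ V (ρ ((t g.u)⁻¹ * f * t g.u) * π) := fun g => by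
    rw [← cls hW.2.1 hπ (mem g.u) (y := (t g.u)⁻¹ * g) (by simp [mem_F, t])]
    congr 3
    group
  rw [Finset.sum_congr rfl fun g _ => e g, ← (eqv n).sum_comp, Fintype.sum_prod_type] at s
  simp only [eqv, Equiv.coe_fn_mk, Finset.sum_const, smul_eq_zero, Finset.card_univ,
    Fintype.card_ne_zero, false_or] at s
  choose p q h1 h2 using fun u => val hW hπ (mem u)
  simp only [h1, ← Finset.sum_mul, mul_eq_zero] at s
  rcases s with s | s
  · have a : ∑ u, p u = 0 := by exact_mod_cast (by simpa using congrArg Complex.re s : ∑ u, (p u : ℝ) = 0)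
    have b : ∑ u, q u = 0 := by exact_mod_cast (by simpa using congrArg Complex.im s : ∑ u, (q u : ℝ) = 0)
    have c := par (fun b => decide (∀ v ∈ W, ρ (z b) v = v)) (fun b c e => by
      simp only [decide_eq_decide] at e
      simp only [decide_eq_true_eq, z_add, map_mul, Module.End.mul_apply]
      intro v hv
      by_cases hb : ∀ v ∈ W, ρ (z b) v = v
      · rw [e.1 hb v hv, hb v hv]
      · rw [(sgn hW c).resolve_left (mt e.2 hb) v hv, map_neg, (sgn hW b).resolve_left hb v hv,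
          neg_neg]) f.a
    have d : ∀ u, ((t u)⁻¹ * f * t u).a = w (-u) * f.a := fun u => by simp [t]
    simp only [d] at h2
    simp only [decide_eq_true_eq, ← h2] at c
    rw [← Int.cast_sum, Finset.sum_add_distrib, a, b] at c
    exact absurd c (by decide)
  · rw [hπ.trace] at s
    exact hW.1 (Submodule.finrank_eq_zero.1 (by exact_mod_cast s))

lemma mz_le : mz (GG n) ≤ 6 := by
  refine csSup_le' ?_
  rintro _ ⟨V, hV, rfl⟩
  have : {c : ConjClasses (GG n) | ∃ g, ConjClasses.mk g = c ∧ V.character g = 0} ⊆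
      (fun u => ConjClasses.mk (t u)) '' {u | u ≠ 0} := by
    rintro _ ⟨g, rfl, hg⟩
    have : g.u ≠ 0 := fun e => nonvan hV e hg
    exact ⟨g.u, this, (ConjClasses.mk_eq_mk_iff_isConj.2 (conj_t g this)).symm⟩
  refine (Set.ncard_le_ncard this).trans ((Set.ncard_image_le).trans ?_)
  rw [Set.ncard_eq_toFinset_card']
  decide

theorem main (N : ℕ) : ∃ (G : Type) (_ : Group G) (_ : Finite G),
    ¬ IsMulCommutative (fitting G) ∧ mz G ≤ 6 ∧ N < Nat.card G := by
  refine ⟨GG N, inferInstance, inferInstance, fun h => ?_, mz_le, ?_⟩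
  · have l : FF N ≤ fitting (GG N) := le_sSup ⟨inferInstance, nil⟩
    have := h.is_comm.comm ⟨⟨1, 0, 0⟩, l rfl⟩ ⟨⟨w 1, 0, 0⟩, l rfl⟩
    have := congrArg (fun g : fitting (GG N) => g.1.c 0) this
    simp only [Subgroup.coe_mul, mul_c, w0, Pi.zero_apply] at this
    exact absurd this (by decide +kernel)
  · rw [← Nat.card_congr (eqv N)]
    have : Fintype.card K = 8 := rfl
    have : N + 1 < 8 ^ (N + 1) := Nat.lt_pow_self (by norm_num)
    simp [*]
    omega

theorem neg : ¬ ∃ g : ℕ → ℕ, ∀ (G : Type) [Group G] [Finite G],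
    ¬ IsMulCommutative (fitting G) → Nat.card G ≤ g (mz G) := by
  rintro ⟨g, hg⟩
  obtain ⟨G, _, _, a, b, c⟩ := main ((Finset.range 7).sup g)
  exact absurd ((hg G a).trans (Finset.le_sup (by simp; omega))) c.not_ge

end Pool.Agent.H.MP_ad7422_al
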